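import Pool.Agent.Q86.EM.Stm

set_option autoImplicit false

namespace Pool.Agent.Q247.EM

open MeasureTheory Set Filter Topology
open scoped ENNReal InnerProductSpace ContDiff
open Pool.Agent.H888R2.KT (LC pst gs zz gc)
open Pool.Agent.H212R2.KLS (mu Bdd)
open Pool.Agent.Q86.EM

/-- the variance is at most the second moment about any point -/
theorem var_le {κ : Type} [Fintype κ] {ρ : Eu κ → ℝ} (hρ : LC ρ) (hm : mu ρ univ = 1)
    (f : Eu κ → ℝ) (hf : Continuous f) (m : ℝ) :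
    ∫ x, f x ^ 2 ∂(mu ρ) - (∫ x, f x ∂(mu ρ)) ^ 2 ≤ ∫ x, (f x - m) ^ 2 ∂(mu ρ) := by
  have : IsProbabilityMeasure (mu ρ) := ⟨hm⟩
  have hi : ∀ f : Eu κ → ℝ, Continuous f → Integrable f (mu ρ) := fun f hf =>
    Pool.Agent.H888R2.KT.N9ax.integrable hρ hf
  have e : ∫ x, (f x - m) ^ 2 ∂(mu ρ) = ∫ x, f x ^ 2 ∂(mu ρ) - 2 * m * ∫ x, f x ∂(mu ρ) + m ^ 2 := by
    have e1 : (fun x => (f x - m) ^ 2) = fun x => (f x ^ 2 - 2 * m * f x) + m ^ 2 := by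
      funext x
      ring
    rw [e1, integral_add (hi _ (by fun_prop)) (hi _ (by fun_prop)),
      integral_sub (hi _ (by fun_prop)) (hi _ (by fun_prop)), integral_const_mul, integral_const]
    simp
  rw [e]
  nlinarith [sq_nonneg (∫ x, f x ∂(mu ρ) - m)]

theorem var_eq {κ : Type} [Fintype κ] {ρ : Eu κ → ℝ} (hρ : LC ρ) (hm : mu ρ univ = 1)
    (f : Eu κ → ℝ) (hf : Continuous f) :
    ∫ x, f x ^ 2 ∂(mu ρ) - (∫ x, f x ∂(mu ρ)) ^ 2 =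
      ∫ x, (f x - ∫ z, f z ∂(mu ρ)) ^ 2 ∂(mu ρ) := by
  have : IsProbabilityMeasure (mu ρ) := ⟨hm⟩
  have hi : ∀ f : Eu κ → ℝ, Continuous f → Integrable f (mu ρ) := fun f hf =>
    Pool.Agent.H888R2.KT.N9ax.integrable hρ hf
  set m := ∫ z, f z ∂(mu ρ) with hmm
  have e1 : (fun x => (f x - m) ^ 2) = fun x => (f x ^ 2 - 2 * m * f x) + m ^ 2 := by
    funext x
    ring
  rw [e1, integral_add (hi _ (by fun_prop)) (hi _ (by fun_prop)),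
    integral_sub (hi _ (by fun_prop)) (hi _ (by fun_prop)), integral_const_mul, integral_const,
    ← hmm]
  simp
  ring

/-- the tilted integrals converge -/
theorem tend {κ : Type} [Fintype κ] {ρ : Eu κ → ℝ} (hρ : LC ρ) (g : Eu κ → ℝ)
    (hg : Continuous g) :
    Tendsto (fun n : ℕ => ∫ x, g x * Real.exp (-((1 / ((n : ℝ) + 1)) / 2 * ‖x‖ ^ 2)) ∂(mu ρ))
      atTop (𝓝 (∫ x, g x ∂(mu ρ))) := by
  have hi : ∀ f : Eu κ → ℝ, Continuous f → Integrable f (mu ρ) := fun f hf =>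
    Pool.Agent.H888R2.KT.N9ax.integrable hρ hf
  refine tendsto_integral_of_dominated_convergence (fun x => |g x|) (fun n => ?_)
    (hi _ hg.abs) (fun n => ?_) ?_
  · exact (hi _ (by fun_prop)).aestronglyMeasurable
  · refine Filter.Eventually.of_forall fun x => ?_
    rw [norm_mul, Real.norm_eq_abs, Real.norm_of_nonneg (Real.exp_pos _).le]
    refine mul_le_of_le_one_right (abs_nonneg _) (Real.exp_le_one_iff.2 ?_)
    have : 0 ≤ 1 / ((n : ℝ) + 1) / 2 * ‖x‖ ^ 2 := by positivity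
    linarith
  · refine Filter.Eventually.of_forall fun x => ?_
    have h1 : Tendsto (fun n : ℕ => 1 / ((n : ℝ) + 1)) atTop (𝓝 0) :=
      tendsto_one_div_add_atTop_nhds_zero_nat
    have h2 : Tendsto (fun n : ℕ => Real.exp (-((1 / ((n : ℝ) + 1)) / 2 * ‖x‖ ^ 2))) atTop
        (𝓝 (Real.exp (-(0 / 2 * ‖x‖ ^ 2)))) :=
      (Real.continuous_exp.tendsto _).comp (((h1.div_const 2).mul_const (‖x‖ ^ 2)).neg)
    have h3 := h2.const_mul (g x)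
    simpa using h3

/-- the inequality for the tilted density -/
theorem tilted (h1 : S_MID) (h2 : S_STA) (h3 : S_TIL) (h4 : S_ENE) {C : ℝ}
    (h5 : ∀ (κ : Type) [Fintype κ] (ρ : Eu κ → ℝ), LC ρ →
      mu ρ univ = 1 → ∀ A : ℝ, 0 ≤ A →
      (∀ u : Eu κ → ℝ, ContDiff ℝ 1 u → (∀ x, 0 ≤ u x) → (∀ x, u x ≤ 1) →
        ∫ x, u x ∂(mu ρ) ≤ 1 / 2 →
        ∫ x, (Kp (u x) - 1 / 2 * u x ^ 2) ∂(mu ρ) ≤ A * ∫ x, ‖fderiv ℝ u x‖ ^ 2 ∂(mu ρ)) →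
      ∀ f : Eu κ → ℝ, ContDiff ℝ 1 f →
        ∫ x, f x ^ 2 ∂(mu ρ) - (∫ x, f x ∂(mu ρ)) ^ 2 ≤
          C * A * ∫ x, ‖fderiv ℝ f x‖ ^ 2 ∂(mu ρ))
    {κ : Type} [Fintype κ] {ρ : Eu κ → ℝ} (hρ : LC ρ) (hm : mu ρ univ = 1) {D : ℝ} (hD : 0 < D)
    (hL : ∀ f : Eu κ → ℝ, ContDiff ℝ 1 f → (∀ x, ‖fderiv ℝ f x‖ ≤ 1) →
      ∫ x, f x ^ 2 ∂(mu ρ) - (∫ x, f x ∂(mu ρ)) ^ 2 ≤ D)
    {δ : ℝ} (hδ : 0 < δ) (f : Eu κ → ℝ) (hf : ContDiff ℝ 1 f) (c : ℝ) (hc0 : 0 < c)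
    (hc : c * ∫ x, Real.exp (-(δ / 2 * ‖x‖ ^ 2)) ∂(mu ρ) = 1) :
    c * (∫ x, f x ^ 2 * Real.exp (-(δ / 2 * ‖x‖ ^ 2)) ∂(mu ρ)) -
        (c * ∫ x, f x * Real.exp (-(δ / 2 * ‖x‖ ^ 2)) ∂(mu ρ)) ^ 2 ≤
      C * (3 / 2 * (480 * (c * D))) *
        (c * ∫ x, ‖fderiv ℝ f x‖ ^ 2 * Real.exp (-(δ / 2 * ‖x‖ ^ 2)) ∂(mu ρ)) := by
  have hi : ∀ f : Eu κ → ℝ, Continuous f → Integrable f (mu ρ) := fun f hf =>
    Pool.Agent.H888R2.KT.N9ax.integrable hρ hf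
  obtain ⟨t1, t2, t3, t4⟩ := h3 κ ρ hρ δ c hδ hc0
  -- mass one
  have hmass : mu (tl δ c ρ) univ = 1 := by
    have e1 := t2 fun _ => (1 : ℝ)
    simp only [one_mul] at e1
    rw [hc, integral_const, smul_eq_mul, mul_one] at e1
    have : (mu (tl δ c ρ)).real univ = 1 := e1
    rw [measureReal_def] at this
    rw [← ENNReal.ofReal_toReal t1.fin, this, ENNReal.ofReal_one]
  -- Lipschitz functions
  have hL' : ∀ g : Eu κ → ℝ, ContDiff ℝ 1 g → (∀ x, ‖fderiv ℝ g x‖ ≤ 1) →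
      ∫ x, g x ^ 2 ∂(mu (tl δ c ρ)) - (∫ x, g x ∂(mu (tl δ c ρ))) ^ 2 ≤ c * D := by
    intro g hg hg1
    have hgc := hg.continuous
    set m := ∫ z, g z ∂(mu ρ) with hmm
    refine (var_le t1 hmass g hgc m).trans ?_
    rw [t2 fun x => (g x - m) ^ 2]
    refine mul_le_mul_of_nonneg_left ?_ hc0.le
    refine le_trans ?_ (hL g hg hg1)
    rw [var_eq hρ hm g hgc]
    refine integral_mono (hi _ (by fun_prop)) (hi _ (by fun_prop)) fun x => ?_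
    refine mul_le_of_le_one_right (sq_nonneg _) (Real.exp_le_one_iff.2 ?_)
    have : 0 ≤ δ / 2 * ‖x‖ ^ 2 := by positivity
    linarith
  have hh : 0 < 480 * (c * D) := by positivity
  -- mean one half
  have m1 : ∀ v : Eu κ → ℝ, Vc v → ∫ y, v y ∂(ny (480 * (c * D)) (tl δ c ρ)) = 1 / 2 →
      0 ≤ JJ (480 * (c * D)) (tl δ c ρ) v := by
    intro v hv hv2
    have := h1 κ (tl δ c ρ) t1 hmass (c * D) (480 * (c * D)) hh hL' v hv hv2
    have e : 7 / 960 - 2 * (c * D) / (480 * (c * D)) = 3 / 960 := by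
      have : c * D ≠ 0 := by positivity
      field_simp
      norm_num
    rw [e] at this
    linarith
  have hθ0 : 0 ≤ (1 + δ * (480 * (c * D)))⁻¹ := by positivity
  have hθ1 : (1 + δ * (480 * (c * D)))⁻¹ < 1 := by
    refine inv_lt_one_of_one_lt₀ ?_
    have : 0 < δ * (480 * (c * D)) := by positivity
    linarith
  have m2 := h2 κ (tl δ c ρ) t1 hmass (480 * (c * D)) hh _ hθ0 hθ1 (t4 _ hh)
    ⟨δ⁻¹, by positivity, t3 hmass⟩ m1
  have m3 := h4 κ (tl δ c ρ) t1 hmass (480 * (c * D)) hh m2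
  have m4 := h5 κ (tl δ c ρ) t1 hmass (3 / 2 * (480 * (c * D))) (by positivity) m3 f hf
  rw [t2 fun x => f x ^ 2, t2 f, t2 fun x => ‖fderiv ℝ f x‖ ^ 2] at m4
  exact m4

theorem eml (h1 : S_MID) (h2 : S_STA) (h3 : S_TIL) (h4 : S_ENE) (h5 : S_LEV) : S_EML := by
  obtain ⟨C, hC, h5⟩ := h5
  refine ⟨C * 720, by positivity, ?_⟩
  intro κ _ ρ hρ hm D hL f hf
  have hi : ∀ f : Eu κ → ℝ, Continuous f → Integrable f (mu ρ) := fun f hf =>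
    Pool.Agent.H888R2.KT.N9ax.integrable hρ hf
  have : IsProbabilityMeasure (mu ρ) := ⟨hm⟩
  -- the case of positive `D`
  have pos : ∀ D : ℝ, 0 < D → (∀ f : Eu κ → ℝ, ContDiff ℝ 1 f → (∀ x, ‖fderiv ℝ f x‖ ≤ 1) →
      ∫ x, f x ^ 2 ∂(mu ρ) - (∫ x, f x ∂(mu ρ)) ^ 2 ≤ D) →
      ∫ x, f x ^ 2 ∂(mu ρ) - (∫ x, f x ∂(mu ρ)) ^ 2 ≤
        C * 720 * D * ∫ x, ‖fderiv ℝ f x‖ ^ 2 ∂(mu ρ) := by
    intro D hD hL
    have hfc := hf.continuous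
    have hdc : Continuous fun x => fderiv ℝ f x := hf.continuous_fderiv (by norm_num)
    set Z : ℕ → ℝ := fun n => ∫ x, (1 : ℝ) * Real.exp (-((1 / ((n : ℝ) + 1)) / 2 * ‖x‖ ^ 2)) ∂(mu ρ)
      with hZ
    have hZt : Tendsto Z atTop (𝓝 1) := by
      have := tend hρ (fun _ => (1 : ℝ)) continuous_const
      have e : ∫ x : Eu κ, (1 : ℝ) ∂(mu ρ) = 1 := by simp
      rw [e] at this
      exact this
    have hZp : ∀ n, 0 < Z n := by
      intro n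
      have : 0 < ∫ x, Real.exp (-((1 / ((n : ℝ) + 1)) / 2 * ‖x‖ ^ 2)) ∂(mu ρ) :=
        integral_exp_pos (hi _ (by fun_prop))
      have e : Z n = ∫ x, Real.exp (-((1 / ((n : ℝ) + 1)) / 2 * ‖x‖ ^ 2)) ∂(mu ρ) := by
        simp only [hZ, one_mul]
      rw [e]
      exact this
    have hct : Tendsto (fun n => (Z n)⁻¹) atTop (𝓝 1) := by
      have := hZt.inv₀ one_ne_zero
      simpa using this
    have key : ∀ n : ℕ, (Z n)⁻¹ *
        (∫ x, f x ^ 2 * Real.exp (-((1 / ((n : ℝ) + 1)) / 2 * ‖x‖ ^ 2)) ∂(mu ρ)) -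
        ((Z n)⁻¹ * ∫ x, f x * Real.exp (-((1 / ((n : ℝ) + 1)) / 2 * ‖x‖ ^ 2)) ∂(mu ρ)) ^ 2 ≤
      C * (3 / 2 * (480 * ((Z n)⁻¹ * D))) *
        ((Z n)⁻¹ *
          ∫ x, ‖fderiv ℝ f x‖ ^ 2 * Real.exp (-((1 / ((n : ℝ) + 1)) / 2 * ‖x‖ ^ 2)) ∂(mu ρ)) := by
      intro n
      refine tilted h1 h2 h3 h4 h5 hρ hm hD hL (δ := 1 / ((n : ℝ) + 1)) (by positivity) f hf
        (Z n)⁻¹ (inv_pos.2 (hZp n)) ?_
      have e : ∫ x, Real.exp (-((1 / ((n : ℝ) + 1)) / 2 * ‖x‖ ^ 2)) ∂(mu ρ) = Z n := by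
        simp only [hZ, one_mul]
      rw [e]
      exact inv_mul_cancel₀ (hZp n).ne'
    have l1 := ((hct.mul (tend hρ (fun x => f x ^ 2) (by fun_prop))).sub
      ((hct.mul (tend hρ f hfc)).pow 2))
    have l2 := (((((hct.mul_const D).const_mul 480).const_mul (3 / 2)).const_mul C).mul
      (hct.mul (tend hρ (fun x => ‖fderiv ℝ f x‖ ^ 2) (by fun_prop))))
    have l3 := le_of_tendsto_of_tendsto' l1 l2 key
    calc ∫ x, f x ^ 2 ∂(mu ρ) - (∫ x, f x ∂(mu ρ)) ^ 2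
        = 1 * ∫ x, f x ^ 2 ∂(mu ρ) - (1 * ∫ x, f x ∂(mu ρ)) ^ 2 := by ring
      _ ≤ _ := l3
      _ = C * 720 * D * ∫ x, ‖fderiv ℝ f x‖ ^ 2 ∂(mu ρ) := by ring
  -- `D` is nonnegative
  have hD0 : 0 ≤ D := by
    have := hL (fun _ => 0) contDiff_const (fun x => by simp)
    simpa using this
  rcases hD0.lt_or_eq with hD | hD
  · exact pos D hD hL
  · -- `D = 0`
    rw [← hD, mul_zero, zero_mul]
    set I := ∫ x, ‖fderiv ℝ f x‖ ^ 2 ∂(mu ρ) with hI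
    have hI0 : 0 ≤ I := integral_nonneg fun x => sq_nonneg _
    refine le_of_forall_pos_le_add fun ε hε => ?_
    have hε2 : 0 < ε / (C * 720 * (I + 1)) := by positivity
    have := pos (ε / (C * 720 * (I + 1))) hε2 (fun g hg hg1 => by
      have := hL g hg hg1
      linarith)
    refine this.trans ?_
    rw [zero_add]
    have e : C * 720 * (ε / (C * 720 * (I + 1))) * I = ε * (I / (I + 1)) := by
      field_simp
    rw [e]
    refine mul_le_of_le_one_right hε.le ?_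
    rw [div_le_one (by positivity)]
    linarith

end Pool.Agent.Q247.EM
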