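import Pool.Agent.Q86.EM.Stm

set_option autoImplicit false

namespace Pool.Agent.Q247.EM

open MeasureTheory Set Filter Topology
open scoped ENNReal InnerProductSpace ContDiff
open Pool.Agent.H888R2.KT (LC pst gs zz gc)
open Pool.Agent.H212R2.KLS (mu Bdd)
open Pool.Agent.Q86.EM

/-- the pointwise inequality at `y` -/
theorem ptw {κ : Type} [Fintype κ] {ρ : Eu κ → ℝ} (hρ : LC ρ) (h : ℝ) (hh : 0 < h)
    (u : Eu κ → ℝ) (hu : Continuous u) (u0 : ∀ x, 0 ≤ u x) (u1 : ∀ x, u x ≤ 1) (y : Eu κ) :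
    pst h ρ (fun x => Ps (u x) * u x) y - pst h ρ (fun x => Ps (u x)) y * pst h ρ u y ≤
      2 * (pst h ρ (fun x => u x ^ 2) y - (pst h ρ u y) ^ 2) := by
  have hP : Continuous fun x => Ps (u x) := by
    unfold Ps
    fun_prop
  set c := pst h ρ u y with hc
  have c0 : 0 ≤ c := by
    have := Pool.Agent.H888R2.KT.N5x.pst_mono hρ h hh y (fun _ => 0) u continuous_const hu u0
    rwa [Pool.Agent.H888R2.KT.N5x.pst_const hρ h hh y] at this
  have c1 : c ≤ 1 := by
    have := Pool.Agent.H888R2.KT.N5x.pst_mono hρ h hh y u (fun _ => 1) hu continuous_const u1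
    rwa [Pool.Agent.H888R2.KT.N5x.pst_const hρ h hh y] at this
  -- left side as the average of the product of the differences
  have hL : pst h ρ (fun x => (Ps (u x) * u x + (-c) * Ps (u x)) + ((-(Ps c)) * u x + Ps c * c)) y =
      pst h ρ (fun x => Ps (u x) * u x) y - pst h ρ (fun x => Ps (u x)) y * c := by
    rw [Pool.Agent.H888R2.KT.N5x.pst_add hρ h hh y _ _ (by fun_prop) (by fun_prop),
      Pool.Agent.H888R2.KT.N5x.pst_add hρ h hh y _ _ (by fun_prop) (by fun_prop),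
      Pool.Agent.H888R2.KT.N5x.pst_add hρ h hh y _ _ (by fun_prop) (by fun_prop),
      Pool.Agent.H888R2.KT.N5x.pst_smul, Pool.Agent.H888R2.KT.N5x.pst_smul,
      Pool.Agent.H888R2.KT.N5x.pst_const hρ h hh y]
    rw [← hc]
    ring
  have hR : pst h ρ (fun x => (2 * u x ^ 2 + (-4 * c) * u x) + 2 * c ^ 2) y =
      2 * (pst h ρ (fun x => u x ^ 2) y - c ^ 2) := by
    rw [Pool.Agent.H888R2.KT.N5x.pst_add hρ h hh y _ _ (by fun_prop) (by fun_prop),
      Pool.Agent.H888R2.KT.N5x.pst_add hρ h hh y _ _ (by fun_prop) (by fun_prop),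
      Pool.Agent.H888R2.KT.N5x.pst_smul, Pool.Agent.H888R2.KT.N5x.pst_smul,
      Pool.Agent.H888R2.KT.N5x.pst_const hρ h hh y]
    rw [← hc]
    ring
  rw [← hL, ← hR]
  refine Pool.Agent.H888R2.KT.N5x.pst_mono hρ h hh y _ _ (by fun_prop) (by fun_prop) fun x => ?_
  have := Ps_mono_mul (u0 x) (u1 x) c0 c1
  nlinarith [this]

theorem ene (h1 : S_FUB) (h2 : S_GSF) : S_ENE := by
  intro κ _ ρ hρ hm h hh hJ u hu u0 u1 hmean
  have huc : Continuous u := hu.continuous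
  have hdc : Continuous fun x => fderiv ℝ u x := hu.continuous_fderiv (by norm_num)
  obtain ⟨hν, hF⟩ := h1 κ ρ hρ hm h hh
  obtain ⟨hG1, hG2, -⟩ := h2 κ h hh
  have hone : ∀ x : Eu κ, gs h (fun _ => (1 : ℝ)) x = 1 := fun x => hG2 1 x
  have hi : ∀ f : Eu κ → ℝ, Continuous f → Integrable f (mu ρ) := fun f hf =>
    Pool.Agent.H888R2.KT.N9ax.integrable hρ hf
  -- averages
  have hav : ∀ f : Eu κ → ℝ, Continuous f → Integrable (fun y => pst h ρ f y) (ny h ρ) ∧
      ∫ x, f x ∂(mu ρ) = ∫ y, pst h ρ f y ∂(ny h ρ) := by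
    intro f hf
    obtain ⟨a, b⟩ := hF f (fun _ => 1) hf continuous_const 1 (fun y => by simp)
    simp only [mul_one, hone] at a b
    exact ⟨a, b⟩
  set v : Eu κ → ℝ := pst h ρ u with hv
  have hvc : Continuous v := (Pool.Agent.H888R2.KT.pst_smooth hρ h hh u huc).1.continuous
  have v0 : ∀ y, 0 ≤ v y := fun y => by
    have := Pool.Agent.H888R2.KT.N5x.pst_mono hρ h hh y (fun _ => 0) u continuous_const huc u0
    rwa [Pool.Agent.H888R2.KT.N5x.pst_const hρ h hh y] at this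
  have v1 : ∀ y, v y ≤ 1 := fun y => by
    have := Pool.Agent.H888R2.KT.N5x.pst_mono hρ h hh y u (fun _ => 1) huc continuous_const u1
    rwa [Pool.Agent.H888R2.KT.N5x.pst_const hρ h hh y] at this
  have vb : ∀ y, |v y| ≤ 1 := fun y => abs_le.2 ⟨by linarith [v0 y], v1 y⟩
  have hV : Vc v := ⟨hvc, v0, v1⟩
  have hJv : 0 ≤ JJ h ρ v := hJ v hV (by rw [← (hav u huc).2]; exact hmean)
  obtain ⟨hgc, hgb, -, -, -, hgm⟩ := hG1 v v hvc hvc 1 vb vb
  have g0 : ∀ x, 0 ≤ gs h v x := fun x => by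
    have h3 := (hG1 (fun _ => (0 : ℝ)) v continuous_const hvc 1 (fun y => by simp) vb).2.2.2.2.2 v0 x
    rwa [hG2 0 x] at h3
  have g1 : ∀ x, gs h v x ≤ 1 := fun x => (abs_le.1 (hgb x)).2
  -- integrate the convexity inequality
  have hKc : Continuous fun x => Kp (u x) := by unfold Kp; fun_prop
  have hPc : Continuous fun x => Ps (u x) := by unfold Ps; fun_prop
  have hKg : Continuous fun x => Kp (gs h v x) := by unfold Kp; fun_prop
  have hc1 : ∫ x, (Kp (u x) + (Ps (u x) * gs h v x - Ps (u x) * u x)) ∂(mu ρ) ≤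
      ∫ x, Kp (gs h v x) ∂(mu ρ) := by
    refine integral_mono (hi _ (by fun_prop)) (hi _ hKg) fun x => ?_
    have := Kp_conv (g0 x) (g1 x) (u0 x) (u1 x)
    simp only
    nlinarith [this]
  rw [integral_add (hi _ hKc) (hi _ (by fun_prop)), integral_sub (hi _ (by fun_prop))
    (hi _ (by fun_prop))] at hc1
  obtain ⟨ia, ib⟩ := hF (fun x => Ps (u x)) v hPc hvc 1 vb
  obtain ⟨ja, jb⟩ := hav (fun x => Ps (u x) * u x) (by fun_prop)
  obtain ⟨ka, kb⟩ := hav (fun x => u x ^ 2) (by fun_prop)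
  obtain ⟨la, lb⟩ := hav (fun x => ‖fderiv ℝ u x‖ ^ 2) (by fun_prop)
  rw [ib, jb] at hc1
  have hvv : Integrable (fun y => v y ^ 2) (ny h ρ) := by
    haveI := hν
    refine Integrable.of_bound (by fun_prop) 1 (Filter.Eventually.of_forall fun y => ?_)
    rw [Real.norm_eq_abs, abs_pow]
    exact pow_le_one₀ (abs_nonneg _) (vb y)
  -- pointwise inequality integrated
  have hc2 : ∫ y, (pst h ρ (fun x => Ps (u x) * u x) y - pst h ρ (fun x => Ps (u x)) y * v y)
      ∂(ny h ρ) ≤ ∫ y, 2 * (pst h ρ (fun x => u x ^ 2) y - v y ^ 2) ∂(ny h ρ) :=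
    integral_mono (ja.sub ia) ((ka.sub hvv).const_mul 2) fun y => ptw hρ h hh u huc u0 u1 y
  rw [integral_sub ja ia, integral_const_mul, integral_sub ka hvv] at hc2
  -- energy
  have hc3 : ∫ y, (pst h ρ (fun x => u x ^ 2) y - v y ^ 2) ∂(ny h ρ) ≤
      ∫ y, h * pst h ρ (fun x => ‖fderiv ℝ u x‖ ^ 2) y ∂(ny h ρ) :=
    integral_mono (ka.sub hvv) (la.const_mul h) fun y =>
      Pool.Agent.H888R2.KT.var_contr hρ h hh u hu y
  rw [integral_sub ka hvv, integral_const_mul, ← lb] at hc3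
  have hJ2 : ∫ x, Kp (gs h v x) ∂(mu ρ) ≤ 1 / 2 * ∫ y, v y ^ 2 ∂(ny h ρ) := by
    unfold JJ at hJv
    linarith
  rw [integral_sub (hi _ hKc) (hi _ (by fun_prop)), integral_const_mul, kb]
  linarith

end Pool.Agent.Q247.EM
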