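import Pool.Agent.Q86.EM.Stm
import Pool.Agent.Q86.FIB.Growth
import Pool.Agent.H212R2.KLS.R4

set_option autoImplicit false

namespace Pool.Agent.Q247.EM

open MeasureTheory Set Filter Topology
open scoped ENNReal InnerProductSpace ContDiff
open Pool.Agent.Q86.EM

/-- a convex function on the space is at least an affine function of the norm -/
theorem conv_lower {κ : Type} [Fintype κ] {V : Eu κ → ℝ} (hV : ConvexOn ℝ univ V)
    (hc : Continuous V) : ∃ C : ℝ, 0 ≤ C ∧ ∀ x, V 0 - C * ‖x‖ ≤ V x := by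
  obtain ⟨B, hB⟩ := (isCompact_closedBall (0 : Eu κ) 1).exists_bound_of_continuousOn
    hc.continuousOn
  have hB0 : 0 ≤ B := (norm_nonneg _).trans (hB 0 (by simp))
  refine ⟨|V 0| + B, by positivity, fun x => ?_⟩
  by_cases hx : x = 0
  · rw [hx]
    simp
  have hn : 0 < ‖x‖ := norm_pos_iff.2 hx
  set y : Eu κ := (-‖x‖⁻¹) • x with hy
  have hyn : y ∈ Metric.closedBall (0 : Eu κ) 1 := by
    rw [mem_closedBall_zero_iff, hy, norm_smul, norm_neg, norm_inv, norm_norm,
      inv_mul_cancel₀ hn.ne']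
  have h1 := hV.2 (mem_univ y) (mem_univ x)
    (by positivity : (0 : ℝ) ≤ ‖x‖ / (1 + ‖x‖)) (by positivity : (0 : ℝ) ≤ 1 / (1 + ‖x‖))
    (by field_simp; ring)
  have h2 : (‖x‖ / (1 + ‖x‖)) • y + (1 / (1 + ‖x‖)) • x = 0 := by
    rw [hy, smul_smul, ← add_smul]
    have : ‖x‖ / (1 + ‖x‖) * -‖x‖⁻¹ + 1 / (1 + ‖x‖) = 0 := by
      field_simp
      ring
    rw [this, zero_smul]
  rw [h2] at h1
  simp only [smul_eq_mul] at h1
  have h3 : (1 + ‖x‖) * V 0 ≤ ‖x‖ * V y + V x := by
    have h4 : ‖x‖ / (1 + ‖x‖) * V y + 1 / (1 + ‖x‖) * V x = (‖x‖ * V y + V x) / (1 + ‖x‖) := by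
      field_simp
    rw [h4, le_div_iff₀ (by positivity)] at h1
    linarith
  have h5 := hB y hyn
  rw [Real.norm_eq_abs] at h5
  have h6 := le_abs_self (V y)
  have h7 := neg_abs_le (V 0)
  nlinarith [mul_le_mul_of_nonneg_left (h6.trans h5) hn.le,
    mul_le_mul_of_nonneg_left h7 hn.le]

theorem lower {κ : Type} [Fintype κ] {U : Eu κ → ℝ} {a : ℝ} (ha : 0 < a) (hU : Continuous U)
    (h : SCv U a) : ∃ b : ℝ, ∀ x, 1 * ‖x‖ - b ≤ U x := by
  obtain ⟨C, hC0, hC⟩ := conv_lower h (by fun_prop)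
  refine ⟨(C + 1) ^ 2 / (2 * a) - (U 0 - a / 2 * ‖(0 : Eu κ)‖ ^ 2), fun x => ?_⟩
  have h1 := hC x
  have h2 : 0 ≤ a / 2 * (‖x‖ - (C + 1) / a) ^ 2 := by positivity
  have h3 : a / 2 * (‖x‖ - (C + 1) / a) ^ 2 = a / 2 * ‖x‖ ^ 2 - (C + 1) * ‖x‖ +
      (C + 1) ^ 2 / (2 * a) := by
    field_simp
    ring
  rw [h3] at h2
  linarith

theorem rd {κ : Type} [Fintype κ] {U : Eu κ → ℝ} {a : ℝ} (ha : 0 < a) (hU : Continuous U)
    (h : SCv U a) : Pool.Agent.Q86.FIB.RD (fun x => Real.exp (-U x)) := by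
  obtain ⟨b, hb⟩ := lower ha hU h
  exact Pool.Agent.Q86.FIB.RD.exp one_pos hb

theorem sci : S_SCI := by
  intro κ _ U a ha hUs hU
  have hUc : Continuous U := hUs.continuous
  have hrd := rd ha hUc hU
  have hint1 : ∀ m : ℕ, Integrable fun x => (1 + ‖x‖) ^ m * Real.exp (-U x) := by
    intro m
    refine (hrd.mul (h := fun x => (1 + ‖x‖) ^ m) ⟨m, 1, fun x => ?_⟩).integrable volume ?_
    · rw [Real.norm_of_nonneg (by positivity), one_mul]
    · fun_prop
  refine ⟨hint1, ?_⟩
  intro f hf hfs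
  set v : Eu κ → ℝ := fun x => Real.exp (-U x) with hv
  have hvc : Continuous v := by fun_prop
  set w : ℕ → Eu κ → ℝ := fun j => (Metric.closedBall (0 : Eu κ) j).indicator v with hw
  have hmeas : ∀ j : ℕ, MeasurableSet (Metric.closedBall (0 : Eu κ) j) :=
    fun j => Metric.isClosed_closedBall.measurableSet
  have hP : ∀ j : ℕ, ∃ c : ℝ, ∫ x, (f x - c) ^ 2 * w j x ≤ a⁻¹ * ∫ x, ‖fderiv ℝ f x‖ ^ 2 * w j x := by
    intro j
    refine Pool.Agent.H212R2.KLS.poincare_of_strong volume (w j) (fun x => ?_) ?_ ?_ ?_ a ha ?_ f hf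
    · exact indicator_nonneg (fun x _ => (Real.exp_pos _).le) x
    · exact hvc.measurable.indicator (hmeas j)
    · obtain ⟨B, hB⟩ := (isCompact_closedBall (0 : Eu κ)
        (j : ℝ)).exists_bound_of_continuousOn hvc.continuousOn
      refine ⟨|B|, fun x => ?_⟩
      by_cases hx : x ∈ Metric.closedBall (0 : Eu κ) j
      · rw [hw]
        simp only
        rw [indicator_of_mem hx]
        exact (le_abs_self _).trans ((hB x hx).trans (le_abs_self _))
      · rw [hw]
        simp only
        rw [indicator_of_notMem hx]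
        exact abs_nonneg _
    · refine ⟨j, fun x hx => indicator_of_notMem ?_ _⟩
      rw [mem_closedBall_zero_iff]
      exact not_le.2 hx
    · intro x y
      have hr : 0 ≤ (w j ((1 / 2 : ℝ) • (x + y))) ^ 2 * Real.exp (-(a / 4 * ‖x - y‖ ^ 2)) :=
        mul_nonneg (sq_nonneg _) (Real.exp_pos _).le
      by_cases hx : x ∈ Metric.closedBall (0 : Eu κ) j
      · by_cases hy : y ∈ Metric.closedBall (0 : Eu κ) j
        · have hm : (1 / 2 : ℝ) • (x + y) ∈ Metric.closedBall (0 : Eu κ) j := by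
            rw [mem_closedBall_zero_iff] at hx hy ⊢
            rw [norm_smul, Real.norm_of_nonneg (by norm_num)]
            have := norm_add_le x y
            linarith
          rw [hw]
          simp only
          rw [indicator_of_mem hx, indicator_of_mem hy, indicator_of_mem hm, hv]
          simp only
          rw [← Real.exp_add, ← Real.exp_nat_mul, ← Real.exp_add]
          refine Real.exp_le_exp.2 ?_
          have h1 := hU.2 (mem_univ x) (mem_univ y) (by norm_num : (0 : ℝ) ≤ 1 / 2)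
            (by norm_num : (0 : ℝ) ≤ 1 / 2) (by norm_num)
          have h2 : (1 / 2 : ℝ) • x + (1 / 2 : ℝ) • y = (1 / 2 : ℝ) • (x + y) :=
            (smul_add _ _ _).symm
          rw [h2] at h1
          simp only [smul_eq_mul] at h1
          have h3 : ‖(1 / 2 : ℝ) • (x + y)‖ ^ 2 = 1 / 4 * ‖x + y‖ ^ 2 := by
            rw [norm_smul, Real.norm_of_nonneg (by norm_num)]
            ring
          have h4 := parallelogram_law_with_norm ℝ x y
          rw [h3] at h1
          push_cast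
          nlinarith
        · have : w j y = 0 := indicator_of_notMem hy _
          rw [this, mul_zero]
          exact hr
      · have : w j x = 0 := indicator_of_notMem hx _
        rw [this, zero_mul]
        exact hr
  -- the limits
  have hlim : ∀ g : Eu κ → ℝ, Integrable (fun z => g z * Real.exp (-U z)) →
      Tendsto (fun j : ℕ => ∫ x, g x * w j x) atTop
        (𝓝 (∫ z, g z * Real.exp (-U z))) := by
    intro g hg
    have h1 : ∀ j : ℕ, ∫ x, g x * w j x =
        ∫ x in Metric.closedBall (0 : Eu κ) j, g x * v x := by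
      intro j
      rw [← integral_indicator (hmeas j)]
      refine integral_congr_ae (Eventually.of_forall fun x => ?_)
      simp only [hw]
      rw [indicator_mul_right]
    simp_rw [h1]
    have h3 := aecover_closedBall (μ := (volume : Measure (Eu κ)))
      (x := (0 : Eu κ)) (tendsto_natCast_atTop_atTop (R := ℝ))
    exact h3.integral_tendsto_of_countably_generated hg
  have bb0 : ∀ g : Eu κ → ℝ, Continuous g → HasCompactSupport g →
      Integrable (fun z => g z * Real.exp (-U z)) := fun g hg hs =>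
    (hg.mul hvc).integrable_of_hasCompactSupport hs.mul_right
  have hfd : Continuous fun x => fderiv ℝ f x := hf.continuous_fderiv (by norm_num)
  have l1 := hlim (fun z => f z ^ 2) (bb0 _ (hf.continuous.pow 2) (by
    simp_rw [pow_two]; exact hfs.mul_right))
  have l2 := hlim f (bb0 _ hf.continuous hfs)
  have l3 := hlim (fun z => ‖fderiv ℝ f z‖ ^ 2) (bb0 _ (hfd.norm.pow 2) (by
    simp_rw [pow_two]; exact (hfs.fderiv (𝕜 := ℝ)).norm.mul_right))
  have l0 := hlim (fun _ => 1) (by
    have := hint1 0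
    simpa using this)
  have hd : ∫ z, (1 : ℝ) * Real.exp (-U z) = ∫ z, Real.exp (-U z) := by
    simp_rw [one_mul]
  rw [hd] at l0
  have key : ∀ j : ℕ, (∫ x, (1 : ℝ) * w j x) * (∫ x, (f x) ^ 2 * w j x) -
      (∫ x, f x * w j x) ^ 2 ≤
      a⁻¹ * (∫ x, (1 : ℝ) * w j x) * ∫ x, ‖fderiv ℝ f x‖ ^ 2 * w j x := by
    intro j
    obtain ⟨c, hc⟩ := hP j
    have hint : ∀ g : Eu κ → ℝ, Continuous g → Integrable (fun x => g x * w j x) := by
      intro g hg
      have h1 : (fun x => g x * w j x) = (Metric.closedBall (0 : Eu κ)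
          j).indicator (fun x => g x * v x) := by
        funext x
        simp only [hw]
        rw [indicator_mul_right]
      rw [h1, integrable_indicator_iff (hmeas j)]
      exact ((hg.mul hvc).continuousOn).integrableOn_compact (isCompact_closedBall _ _)
    have cφ : Continuous f := hf.continuous
    have i1 : Integrable (fun x => f x ^ 2 * w j x) := hint _ (cφ.pow 2)
    have i2 : Integrable (fun x => 2 * c * (f x * w j x)) := (hint _ cφ).const_mul _
    have i3 : Integrable (fun x => c ^ 2 * ((1 : ℝ) * w j x)) :=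
      (hint _ continuous_const).const_mul _
    have i12 : Integrable (fun x => f x ^ 2 * w j x - 2 * c * (f x * w j x)) :=
      i1.sub i2
    have h2 : ∫ x, (f x - c) ^ 2 * w j x = (∫ x, f x ^ 2 * w j x) -
        (∫ x, 2 * c * (f x * w j x)) + ∫ x, c ^ 2 * ((1 : ℝ) * w j x) := by
      rw [← integral_sub i1 i2, ← integral_add i12 i3]
      refine integral_congr_ae (Eventually.of_forall fun x => ?_)
      simp only
      ring
    rw [h2, integral_const_mul, integral_const_mul] at hc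
    have hD0 : 0 ≤ ∫ x, (1 : ℝ) * w j x := integral_nonneg fun x => mul_nonneg zero_le_one
      (indicator_nonneg (fun x _ => (Real.exp_pos _).le) x)
    set D : ℝ := ∫ x, (1 : ℝ) * w j x with hD
    set A : ℝ := ∫ x, f x ^ 2 * w j x with hA
    set B : ℝ := ∫ x, f x * w j x with hB
    set G : ℝ := ∫ x, ‖fderiv ℝ f x‖ ^ 2 * w j x with hG
    have h3 := mul_le_mul_of_nonneg_left hc hD0
    nlinarith [sq_nonneg (D * c - B)]
  have hL : Tendsto (fun j : ℕ => (∫ x, (1 : ℝ) * w j x) * (∫ x, (f x) ^ 2 * w j x) -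
      (∫ x, f x * w j x) ^ 2) atTop
      (𝓝 ((∫ z, Real.exp (-U z)) * (∫ z, f z ^ 2 * Real.exp (-U z)) -
        (∫ z, f z * Real.exp (-U z)) ^ 2)) := (l0.mul l1).sub (l2.pow 2)
  have hR : Tendsto (fun j : ℕ => a⁻¹ * (∫ x, (1 : ℝ) * w j x) *
      ∫ x, ‖fderiv ℝ f x‖ ^ 2 * w j x) atTop
      (𝓝 (a⁻¹ * (∫ z, Real.exp (-U z)) * ∫ z, ‖fderiv ℝ f z‖ ^ 2 * Real.exp (-U z))) :=
    (l0.const_mul a⁻¹).mul l3
  exact le_of_tendsto_of_tendsto' hL hR key

end Pool.Agent.Q247.EM
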